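import Pool.Agent.H54.ND.Ent
import Pool.Agent.H36.NA.Lit

/-!
# The slope is few given the near position

`drop_law`: a code which is few given a record and a velocity-like letter `v`, and few given the point
record, is few given the record alone, if `v` is read off from a letter `ud` which the point record does
not see. `na_few`: the near-alive letters (`NaE`). `nd_few`: the near-dead letters (`NdE`). `few_conv`:
change of the code of a real number.
-/

set_option autoImplicit false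

namespace Pool.SL73

open Finset Real MvPolynomial
open Pool.Agent.H49.Ent Pool.Agent.H32.Dense Pool.STK Pool.KA Pool.KSAT Pool.K2S Pool.PB Pool.S6C
open Pool.GEN hiding Det
open Pool.CHT Pool.D2R Pool.LA91 Pool.RCD
open Pool.V0F (cR)
open Pool.NDC42 (hgC pcC x0 xn xg rP LbW NdE)
open Pool.NA36 (vpC rG NaE)
open Pool.ND54 (det_rP hg_coarse cR_mono cond_A)
open Pool.BFL (Pb)

/-- **Last drop, law level.** -/
theorem drop_law {Ω Φ Y Z Q R V : Type} [Fintype Ω] {p : Ω → ℝ} (hp : IsLaw p) (φ : Ω → Φ)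
    (ud : Ω → Y) (z : Ω → Z) (q0 : Ω → Q) (r : Ω → R) (v : Ω → V) {e₁ e₂ e₃ e₄ : ℝ}
    (hz : Det p q0 z) (hr : Det p r q0) (h1 : CH p ud z ≤ CH p ud r + e₁)
    (h2 : CH p v (fun ω => (q0 ω, ud ω)) ≤ e₂) (h3 : CH p φ (fun ω => (v ω, q0 ω)) ≤ e₃)
    (h4 : CH p φ r ≤ e₄) : CH p φ q0 ≤ e₁ + e₂ + e₃ + e₄ := by
  classical
  have p0 := hp.nonneg
  -- `I(φ ; ud | q0)` is small
  have a1 : CH p ud q0 ≤ CH p ud z := CH_mono_cond p0 hz
  have a2 : CH p ud r ≤ CH p φ r + CH p ud (fun ω => (φ ω, r ω)) := by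
    have := CH_le_add p0 ud φ r
    linarith
  have a3 : CH p ud (fun ω => (φ ω, r ω)) ≤ CH p ud (fun ω => (φ ω, q0 ω)) :=
    CH_mono_cond p0 fun ω ω' a b h =>
      Prod.ext (Prod.ext_iff.1 h).1 (hr ω ω' a b (Prod.ext_iff.1 h).2)
  have a4 := CH_chain p0 φ ud q0
  have a5 := CH_chain p0 ud φ q0
  have a6 : CH p (fun ω => (φ ω, ud ω)) q0 = CH p (fun ω => (ud ω, φ ω)) q0 := by
    refine le_antisymm (CH_mono_left p0 fun ω ω' _ _ h => ?_) (CH_mono_left p0 fun ω ω' _ _ h => ?_)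
    · have h' := Prod.ext_iff.1 (Prod.ext_iff.1 h).1
      exact Prod.ext h'.2 h'.1
    · have h' := Prod.ext_iff.1 (Prod.ext_iff.1 h).1
      exact Prod.ext h'.2 h'.1
  -- `φ` given `q0, ud`
  have b1 := CH_le_add p0 φ v (fun ω => (ud ω, q0 ω))
  have b2 : CH p v (fun ω => (ud ω, q0 ω)) ≤ CH p v (fun ω => (q0 ω, ud ω)) :=
    CH_mono_cond p0 fun ω ω' _ _ h => Prod.ext (Prod.ext_iff.1 h).2 (Prod.ext_iff.1 h).1
  have b3 : CH p φ (fun ω => (v ω, (ud ω, q0 ω))) ≤ CH p φ (fun ω => (v ω, q0 ω)) :=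
    CH_mono_cond p0 fun ω ω' _ _ h =>
      Prod.ext (Prod.ext_iff.1 h).1 (Prod.ext_iff.1 (Prod.ext_iff.1 h).2).2
  linarith

/-- **Change of the code**: two codes of one number which differ by at most `K` off a small mass. -/
theorem few_conv {Ω Z : Type} [Fintype Ω] {p : Ω → ℝ} (hp : IsLaw p) (z : Ω → Z) (a b : Ω → ℤ)
    (K N : ℕ) {c₁ : ℝ} (ha : ∀ ω, 0 < p ω → |a ω| ≤ (N : ℤ))
    (hb : Pb p (fun ω => ¬ |a ω - b ω| ≤ (K : ℤ)) ≤ c₁) :
    CH p a z ≤ CH p b z + (Real.log 2 + Real.log (2 * K + 1) + c₁ * Real.log (2 * N + 1)) := by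
  classical
  have h1 := CH_le_add hp.nonneg a b z
  have h2 := Pool.H52.TIE.CH_le_two hp a (fun ω => (b ω, z ω)) (fun ω => |a ω - b ω| ≤ (K : ℤ))
    (fun v => Finset.Icc (v.1 - K) (v.1 + K)) (fun _ => Finset.Icc (-(N : ℤ)) N)
    (K := 2 * K + 1) (N := 2 * N + 1)
    (fun ω _ hω => by
      rw [Finset.mem_Icc]
      rw [abs_le] at hω
      constructor <;> linarith [hω.1, hω.2])
    (fun v => by
      rw [Int.card_Icc]
      have : (v.1 + K + 1 - (v.1 - K) : ℤ) = ((2 * K + 1 : ℕ) : ℤ) := by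
        push_cast
        ring
      rw [this, Int.toNat_natCast])
    (fun ω hω => by
      have h3 := ha ω hω
      rw [abs_le] at h3
      rw [Finset.mem_Icc]
      exact h3)
    (fun _ => by
      rw [Int.card_Icc]
      omega) (by omega) (by omega)
  have h5 : ((2 * K + 1 : ℕ) : ℝ) = 2 * K + 1 := by push_cast; ring
  have h6 : ((2 * N + 1 : ℕ) : ℝ) = 2 * N + 1 := by push_cast; ring
  rw [h5, h6] at h2
  have h7 : Pb p (fun ω => ¬ |a ω - b ω| ≤ (K : ℤ)) * Real.log (2 * N + 1) ≤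
      c₁ * Real.log (2 * N + 1) := by
    refine mul_le_mul_of_nonneg_right hb (Real.log_nonneg ?_)
    have : (0 : ℝ) ≤ N := Nat.cast_nonneg N
    linarith
  linarith

/-- **Change of the code, real form**: `ψ` is near `κ φ`, `ψc` the code of `ψ / sc`, `φc` the code of
`M φ`. -/
theorem few_conv' {Ω Z : Type} [Fintype Ω] {p : Ω → ℝ} (hp : IsLaw p) (z : Ω → Z) (ψ φ : Ω → ℝ)
    (φc : Ω → ℤ) (K N : ℕ) {M sc c₁ : ℝ} (hc : ∀ ω, 0 < p ω → |M * φ ω - φc ω| ≤ 1)
    (ha : ∀ ω, 0 < p ω → |φc ω| ≤ (N : ℤ))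
    (hb : Pb p (fun ω => ¬ |M * φ ω - ψ ω / sc| ≤ (K : ℝ)) ≤ c₁) :
    CH p φc z ≤ CH p (fun ω => ⌊ψ ω / sc⌋) z +
      (Real.log 2 + Real.log (2 * K + 5) + c₁ * Real.log (2 * N + 1)) := by
  have h1 := few_conv hp z φc (fun ω => ⌊ψ ω / sc⌋) (K + 2) N (c₁ := c₁) ha (by
    refine le_trans (Pool.STB.Pb_mono hp.nonneg fun ω hω hn h => ?_) hb
    apply hn
    have h2 := hc ω hω
    have h3 := Int.floor_le (ψ ω / sc)
    have h4 := Int.lt_floor_add_one (ψ ω / sc)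
    rw [abs_le] at h h2
    have h5 : |((φc ω : ℤ) : ℝ) - (⌊ψ ω / sc⌋ : ℤ)| ≤ (K : ℝ) + 2 := by
      rw [abs_le]
      constructor <;> linarith [h.1, h.2, h2.1, h2.2]
    have h6 : |(φc ω - ⌊ψ ω / sc⌋ : ℤ)| ≤ ((K + 2 : ℕ) : ℤ) := by
      have h7 : ((|(φc ω - ⌊ψ ω / sc⌋ : ℤ)| : ℤ) : ℝ) ≤ (((K + 2 : ℕ) : ℤ) : ℝ) := by
        push_cast
        exact h5
      exact_mod_cast h7
    exact h6)
  have h8 : (2 * ((K + 2 : ℕ) : ℝ) + 1) = 2 * K + 5 := by push_cast; ring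
  rw [h8] at h1
  exact h1

/-- From one sample to any law of configurations with this sample. -/
theorem few_marg {Ω Ω' Φ Z : Type} [Fintype Ω] [Fintype Ω'] {q : Ω' → ℝ} {p : Ω → ℝ} {g : Ω' → Ω}
    (hm : Marg q p g) (φ : Ω → Φ) (z : Ω → Z) :
    CH q (fun v => φ (g v)) (fun v => z (g v)) = CH p φ z := hm.CH φ z

variable {m J : ℕ}

/-- The digits of the height to a coarser level are few given all digits. -/
theorem hg_few {F : Fam m J} {p : F.Ω → ℝ} (hp : IsLaw p) {c : ℕ → Fin m} {w : ℝ}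
    {H : LnT F → ℕ → MvPolynomial (Option (Fin m)) ℝ} {s s' : ℝ} (hs : s ≤ s') (l : ℕ)
    {Z : Type} (z : F.Ω → Z) (hz : Det p z (hgC F c w H l s')) :
    CH p (hgC F c w H l s) z ≤ Real.log 3 := by
  have h2 := Pool.AVG5.CH_near hp (fun ω (_ : Fin 1) => hgC F c w H l s ω) z (D := 1)
    (by norm_num) (fun ω ω' a b h i => hg_coarse hs (hz ω ω' a b h))
  have h3 : (Fintype.card (Fin 1) : ℝ) * Real.log (2 * 1 + 1) = Real.log 3 := by
    rw [Fintype.card_fin]
    norm_num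
  rw [h3] at h2
  refine le_trans (CH_mono_left hp.nonneg fun v v' _ _ h => ?_) h2
  exact congrFun (Prod.ext_iff.1 h).1 0

/-- **The slope is few given the near position, near-alive letters**: from the star lemma (the code of
the slope is few given the record `rG` of a general pair) and the point record. -/
theorem na_few {F : Fam m J} {A : F.Ω → Prop} (hA : 0 < Pe F.p A) {c : ℕ → Fin m} {D : ℕ}
    {w t x' : ℝ} {n : ℕ → ℝ} {nt e : ℝ} {H : LnT F → ℕ → MvPolynomial (Option (Fin m)) ℝ}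
    (hn : nt ≤ n 2) (hwt : w ≤ t) (htx : t ≤ x') (hx' : x' ≤ 1)
    (hE : NaE F A c D w x' n e H) {Φ : Type} (φ : F.Ω → Φ) {es er : ℝ}
    (hs : CH (Pool.Agent.H49.Ent.cond F.p A True) φ (rG F A c D w t t n nt H) ≤ es)
    (hr : CH (Pool.Agent.H49.Ent.cond F.p A True) φ (rP F A c w x' n H) ≤ er) :
    CH (Pool.Agent.H49.Ent.cond F.p A True) φ (rP F A c w t n H) ≤
      es + er + 2 * (e * J) + Real.log 3 := by
  classical
  obtain ⟨Y, ud, h1, h2⟩ := hE.fr
  obtain ⟨p, hp⟩ : ∃ p, p = Pool.Agent.H49.Ent.cond F.p A True := ⟨_, rfl⟩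
  have hpl : IsLaw p := by rw [hp]; exact isLaw_cond F.isLaw hA
  have hpA : ∀ ω, 0 < p ω → A ω := fun ω hω => cond_A (by rwa [hp] at hω)
  rw [← hp] at h1 h2 hs hr ⊢
  have p0 := hpl.nonneg
  have hz : Det p (rP F A c w t n H) (fun ω => (cR F A w ω, F.W ω)) := fun ω ω' a b h =>
    (Prod.ext_iff.1 (det_rP (c := c) (w := w) (n := n) (H := H) hpA hwt (htx.trans hx')
      ω ω' a b h)).1
  have hq : Det p (rP F A c w x' n H) (rP F A c w t n H) :=
    det_rP (c := c) (w := w) (n := n) (H := H) hpA htx hx'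
  have h3 : CH p (vpC F c D w n H) (fun ω => (rP F A c w t n H ω, ud ω)) ≤ e * J := by
    refine le_trans (CH_mono_cond p0 fun ω ω' a b h => ?_) h2
    have h' := Prod.ext_iff.1 h
    exact Prod.ext (hz ω ω' a b h'.1)
      (Prod.ext (Prod.ext_iff.1 (Prod.ext_iff.1 h'.1).2).1 h'.2)
  have h4 : CH p φ (fun ω => (vpC F c D w n H ω, rP F A c w t n H ω)) ≤ Real.log 3 + es := by
    have k1 := CH_le_add p0 φ (hgC F c w H 2 nt)
      (fun ω => (vpC F c D w n H ω, rP F A c w t n H ω))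
    have k2 := hg_few hpl (c := c) (w := w) (H := H) hn 2
      (fun ω => (vpC F c D w n H ω, rP F A c w t n H ω)) (fun ω ω' _ _ h =>
        (Prod.ext_iff.1 (Prod.ext_iff.1 (Prod.ext_iff.1 h).2).2).2)
    have k3 : CH p φ (fun ω => (hgC F c w H 2 nt ω,
        (vpC F c D w n H ω, rP F A c w t n H ω))) ≤ CH p φ (rG F A c D w t t n nt H) := by
      refine CH_mono_cond p0 fun ω ω' a b h => ?_
      have h' := Prod.ext_iff.1 h
      have h'' := Prod.ext_iff.1 h'.2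
      have h3 := hz ω ω' a b h''.2
      have h4 := Prod.ext_iff.1 (Prod.ext_iff.1 h''.2).1
      have h5 := Prod.ext_iff.1 (Prod.ext_iff.1 h''.2).2
      exact Prod.ext (Prod.ext h3 (Prod.ext h''.1 h4.1)) (Prod.ext (Prod.ext h'.1 h5.2) h4.1)
    linarith
  have h5 := drop_law hpl φ ud (fun ω => (cR F A w ω, F.W ω)) (rP F A c w t n H)
    (rP F A c w x' n H) (vpC F c D w n H) (e₁ := e * J) hz hq h1 h3 h4 hr
  linarith

/-- **The slope is few given the near position, near-dead letters**: from the pair step (the code of the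
slope is few given the time and the near data) and the point record. -/
theorem nd_few {F : Fam m J} {A : F.Ω → Prop} (hA : 0 < Pe F.p A) {c : ℕ → Fin m} {D : ℕ}
    {w t t' x' : ℝ} {n : ℕ → ℝ} {nt e : ℝ} {H : LnT F → ℕ → MvPolynomial (Option (Fin m)) ℝ}
    (hwt : w ≤ t) (htx : t ≤ x') (hx' : x' ≤ 1)
    (hE : NdE F A c D w t' x' n nt e H) {Φ : Type} (φ : F.Ω → Φ) {es er : ℝ}
    (hs : CH (Pool.Agent.H49.Ent.cond F.p A True) φ
      (fun ω => (F.T ω, xg F A c D w n nt H ω)) ≤ es)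
    (hr : CH (Pool.Agent.H49.Ent.cond F.p A True) φ (rP F A c w x' n H) ≤ er) :
    CH (Pool.Agent.H49.Ent.cond F.p A True) φ (rP F A c w t n H) ≤
      es + er + 2 * (e * J) := by
  classical
  obtain ⟨Y, ud, h1, -, h2⟩ := hE.fr
  obtain ⟨p, hp⟩ : ∃ p, p = Pool.Agent.H49.Ent.cond F.p A True := ⟨_, rfl⟩
  have hpl : IsLaw p := by rw [hp]; exact isLaw_cond F.isLaw hA
  have hpA : ∀ ω, 0 < p ω → A ω := fun ω hω => cond_A (by rwa [hp] at hω)
  rw [← hp] at h1 h2 hs hr ⊢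
  have p0 := hpl.nonneg
  have hz : Det p (rP F A c w t n H) (fun ω => (cR F A w ω, F.W ω)) := fun ω ω' a b h =>
    (Prod.ext_iff.1 (det_rP (c := c) (w := w) (n := n) (H := H) hpA hwt (htx.trans hx')
      ω ω' a b h)).1
  have hq : Det p (rP F A c w x' n H) (rP F A c w t n H) :=
    det_rP (c := c) (w := w) (n := n) (H := H) hpA htx hx'
  have h3 : CH p (xg F A c D w n nt H) (fun ω => (rP F A c w t n H ω, ud ω)) ≤ e * J := by
    refine le_trans (CH_mono_cond p0 fun ω ω' a b h => ?_) h2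
    have h' := Prod.ext_iff.1 h
    have h'' := Prod.ext_iff.1 (Prod.ext_iff.1 h'.1).2
    exact Prod.ext (hz ω ω' a b h'.1) (Prod.ext h''.1 (Prod.ext h''.2 h'.2))
  have h4 : CH p φ (fun ω => (xg F A c D w n nt H ω, rP F A c w t n H ω)) ≤ es := by
    refine le_trans (CH_mono_cond p0 fun ω ω' a b h => ?_) hs
    have h' := Prod.ext_iff.1 h
    have h4 := (Prod.ext_iff.1 (Prod.ext_iff.1 h'.2).1).2
    exact Prod.ext (Prod.ext_iff.1 h4).1 h'.1
  have h5 := drop_law hpl φ ud (fun ω => (cR F A w ω, F.W ω)) (rP F A c w t n H)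
    (rP F A c w x' n H) (xg F A c D w n nt H) (e₁ := e * J) hz hq h1 h3 h4 hr
  linarith

end Pool.SL73
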