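import Pool.Agent.H77.SL.Tri

/-!
# The chain with one inner star: from base relations to the triangle

Lines `L0 -A- L2 -C- L3 -B- L1`; `Lr` is parallel to `L2`, `Lq` is parallel to `L3`. `u i`, `n i` are the
paths of the two coordinates; `n` over `Lr` is the polynomial `Q_r (s, h) = sum q_k (h) c_k (s)` of the
height `h` over `Lr`, the same for `Lq`. `Ch2`: the base relations. `ch2_tri`: the hypotheses `Tri` of
the triangle. `ch2_der`: its conclusion, in terms of the quotients at the three stars.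
-/

set_option autoImplicit false

namespace Pool.SL73

open Finset Polynomial
open Pool.SL77 (Tri mkv mvt tay)

/-- `h ↦ sum q_k (h) c_k (s)`. -/
noncomputable def QP (N : ℕ) (q c : ℕ → ℝ[X]) (s : ℝ) : ℝ[X] :=
  ∑ k ∈ range N, q k * C ((c k).eval s)

/-- `s ↦ sum q_k (D (s)) c_k (s)`. -/
noncomputable def QS (N : ℕ) (q c : ℕ → ℝ[X]) (D : ℝ[X]) : ℝ[X] :=
  ∑ k ∈ range N, (q k).comp D * c k

section

variable {N : ℕ} {q c : ℕ → ℝ[X]}

theorem QP_der (N : ℕ) (q c : ℕ → ℝ[X]) (s : ℝ) :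
    derivative (QP N q c s) = QP N (fun k => derivative (q k)) c s := by
  unfold QP
  rw [derivative_sum]
  refine Finset.sum_congr rfl fun k _ => ?_
  rw [derivative_mul, derivative_C, mul_zero, add_zero]

theorem QS_eval (N : ℕ) (q c : ℕ → ℝ[X]) (D : ℝ[X]) (s : ℝ) :
    (QS N q c D).eval s = (QP N q c s).eval (D.eval s) := by
  unfold QS QP
  rw [eval_finsetSum, eval_finsetSum]
  refine Finset.sum_congr rfl fun k _ => ?_
  rw [eval_mul, eval_mul, eval_comp, eval_C]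

theorem QS_der (N : ℕ) (q c : ℕ → ℝ[X]) (D : ℝ[X]) (s : ℝ) :
    (derivative (QS N q c D)).eval s =
      (derivative (QP N q c s)).eval (D.eval s) * (derivative D).eval s +
        (QP N q (fun k => derivative (c k)) s).eval (D.eval s) := by
  unfold QS QP
  rw [derivative_sum, derivative_sum, eval_finsetSum, eval_finsetSum, eval_finsetSum,
    Finset.sum_mul, ← Finset.sum_add_distrib]
  refine Finset.sum_congr rfl fun k _ => ?_
  rw [derivative_mul, derivative_comp, derivative_mul, derivative_C]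
  simp only [eval_add, eval_mul, eval_comp, eval_C, mul_zero, add_zero]
  ring

theorem QS'_eval (N : ℕ) (q c : ℕ → ℝ[X]) (D : ℝ[X]) (s : ℝ) :
    (QS N (fun k => derivative (q k)) c D).eval s =
      (derivative (QP N q c s)).eval (D.eval s) := by
  rw [QS_eval, QP_der]

end

/-- Increments on a short interval. -/
theorem inc {P : ℝ[X]} {c0 ρ0 M x y : ℝ} (hc : |c0| ≤ 1) (hρ : ρ0 ≤ 1 / 2)
    (h : ∀ s : ℝ, |s| ≤ 2 → |(derivative P).eval s| ≤ M) (hx : |x - c0| ≤ ρ0)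
    (hy : |y - c0| ≤ ρ0) : |P.eval x - P.eval y| ≤ 2 * (M * ρ0) := by
  have hM : 0 ≤ M := (abs_nonneg _).trans (h 0 (by rw [abs_zero]; norm_num))
  have h1 : ∀ z : ℝ, |z - c0| ≤ ρ0 → |P.eval z - P.eval c0| ≤ M * ρ0 := by
    intro z hz
    refine (mvt P (a := c0) (b := z) (M := M) fun s hs => h s ?_).trans
      (mul_le_mul_of_nonneg_left hz hM)
    have := abs_add_le (s - c0) c0
    rw [sub_add_cancel] at this
    linarith
  have h2 := abs_sub_le (P.eval x) (P.eval c0) (P.eval y)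
  have h3 := h1 x hx
  have h4 := h1 y hy
  rw [abs_sub_comm (P.eval c0)] at h2
  linarith

/-- Increments in the height. -/
theorem inch {P : ℝ[X]} {H M x y e : ℝ} (h : ∀ s : ℝ, |s| ≤ H → |(derivative P).eval s| ≤ M)
    (hx : |x| ≤ H / 2) (hy : |y - x| ≤ e) (he : e ≤ H / 2) : |P.eval y - P.eval x| ≤ M * e := by
  have hM : 0 ≤ M := (abs_nonneg _).trans (h x (by
    have := abs_nonneg x
    linarith))
  refine (mvt P (a := x) (b := y) (M := M) fun s hs => h s ?_).trans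
    (mul_le_mul_of_nonneg_left hy hM)
  have := abs_add_le (s - x) x
  rw [sub_add_cancel] at this
  linarith

/-- The error along the first line, the inner star moved to `c`. -/
noncomputable def chE0 (N : ℕ) (qr cr qq cq : ℕ → ℝ[X]) (n0 nr nq u0 ur uq : ℝ[X]) (c : ℝ) :
    ℝ[X] :=
  n0 - nr - QS N qr cr (u0 - ur) + (C (nr.eval c - nq.eval c) + (QP N qr cr c).comp (u0 - ur) -
    (QP N qq cq c).comp (u0 - ur + C (ur.eval c - uq.eval c)))

/-- The error along a line. -/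
noncomputable def chE (N : ℕ) (q c : ℕ → ℝ[X]) (n nq u uq : ℝ[X]) : ℝ[X] :=
  n - nq - QS N q c (u - uq)

/-- The bounds of `Q` at `(s, x)`. -/
def QM (N : ℕ) (q c : ℕ → ℝ[X]) (M1 M2 s x : ℝ) : Prop :=
  |(derivative (QP N q c s)).eval x| ≤ M1 ∧
  |(derivative (derivative (QP N q c s))).eval x| ≤ M2 ∧
  |(derivative (QP N q (fun k => derivative (c k)) s)).eval x| ≤ M2

/-- **The base relations** of the chain with one inner star. -/
structure Ch2 (N : ℕ) (qr cr qq cq : ℕ → ℝ[X]) (n0 n1 n2 n3 nr nq u0 u1 u2 u3 ur uq C2 C3 : ℝ[X])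
    (A B c c0 H ρ0 ρt δ θ κ ε1 e2 X M1 M2 Mc eu en ed ec enc : ℝ) : Prop where
  hc0 : |c0| ≤ 1
  hA : |A - c0| ≤ ρ0
  hB : |B - c0| ≤ ρ0
  hC : |c - c0| ≤ ρ0
  /-- the two outer stars -/
  uA : |u0.eval A - u2.eval A| ≤ eu
  nA : |n0.eval A - n2.eval A| ≤ en
  uB : |u1.eval B - u3.eval B| ≤ eu
  nB : |n1.eval B - n3.eval B| ≤ en
  /-- the inner star, moved to `c` -/
  uC : |u2.eval c - u3.eval c| ≤ ec
  nC : |n2.eval c - n3.eval c - C3.eval c * (u2.eval c - u3.eval c)| ≤ enc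
  /-- the parallel lines -/
  rr : ∀ s : ℝ, |s| ≤ 1 → |(chE N qr cr n2 nr u2 ur).eval s| ≤ ε1
  rq : ∀ s : ℝ, |s| ≤ 1 → |(chE N qq cq n3 nq u3 uq).eval s| ≤ ε1
  dr : ∀ s : ℝ, |s| ≤ 2 → |(derivative (u2 - ur)).eval s| ≤ ed
  dq : ∀ s : ℝ, |s| ≤ 2 → |(derivative (u3 - uq)).eval s| ≤ ed
  /-- the heights -/
  d0 : ∀ s : ℝ, |s| ≤ 2 → |(derivative (derivative (u0 - ur))).eval s| ≤ κ
  d1 : ∀ s : ℝ, |s| ≤ 2 → |(derivative (derivative (u1 - uq))).eval s| ≤ κ
  s0 : δ ≤ θ * |(derivative (u0 - ur)).eval c0|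
  s1 : δ ≤ θ * |(derivative (u1 - uq)).eval c0|
  hr : ∀ s : ℝ, |s| ≤ 2 → |(u2 - ur).eval s| ≤ H / 2
  hq : ∀ s : ℝ, |s| ≤ 2 → |(u3 - uq).eval s| ≤ H / 2
  /-- the slopes of the charts -/
  cr2 : ∀ s : ℝ, |s| ≤ 1 →
    |(QS N (fun k => derivative (qr k)) cr (u2 - ur) - C2).eval s| ≤ e2
  cq3 : ∀ s : ℝ, |s| ≤ 1 →
    |(QS N (fun k => derivative (qq k)) cq (u3 - uq) - C3).eval s| ≤ e2
  mr : ∀ s x : ℝ, |s| ≤ 2 → |x| ≤ H → QM N qr cr M1 M2 s x
  mq : ∀ s x : ℝ, |s| ≤ 2 → |x| ≤ H → QM N qq cq M1 M2 s x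
  /-- crude bounds -/
  qA : |(derivative (n0 - n2)).eval A| ≤ Mc * |(derivative (u0 - u2)).eval A|
  qB : |(derivative (n1 - n3)).eval B| ≤ Mc * |(derivative (u1 - u3)).eval B|
  g0 : ∀ s : ℝ, |s - A| ≤ ρt → |(chE0 N qr cr qq cq n0 nr nq u0 ur uq c).eval s -
    (chE N qq cq n3 nq u3 uq).eval s| ≤ X
  g1 : ∀ s : ℝ, |s - B| ≤ ρt → |(chE N qq cq n1 nq u1 uq).eval s -
    (chE N qq cq n3 nq u3 uq).eval s| ≤ X

/-- The quotient at an outer star: the slope `w` of the height over the parallel line instead of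
the slope `w'` over the line itself. -/
theorem quo_star {a w w' d r δ θ Mc ed Rr : ℝ} (hδ : 0 < δ) (hθ : 1 ≤ θ) (hw : δ / 2 ≤ θ * |w|)
    (hd : |d| ≤ ed) (hed : 4 * θ * ed ≤ δ) (hw' : w' = w - d) (ha : |a| ≤ Mc * |w'|)
    (hr : |r| ≤ Rr) : |(a + r) / w - a / w'| ≤ 2 * (θ / δ) * (Rr + Mc * ed) := by
  have hθ0 : 0 < θ := by linarith
  have hed0 : 0 ≤ ed := (abs_nonneg _).trans hd
  have hw0 : 0 < |w| := by
    by_contra hc
    have h0 : |w| = 0 := le_antisymm (not_lt.1 hc) (abs_nonneg _)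
    rw [h0, mul_zero] at hw
    linarith
  have hww : θ * |w| ≤ θ * |w'| + θ * ed := by
    have h1 : |w| ≤ |w'| + ed := by
      have := abs_add_le w' d
      rw [hw', sub_add_cancel] at this
      rw [hw']
      linarith
    have := mul_le_mul_of_nonneg_left h1 hθ0.le
    linarith
  have hw'0 : 0 < |w'| := by
    by_contra hc
    have h0 : |w'| = 0 := le_antisymm (not_lt.1 hc) (abs_nonneg _)
    rw [h0, mul_zero] at hww
    linarith
  have hwn : w ≠ 0 := abs_pos.1 hw0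
  have hwn' : w' ≠ 0 := abs_pos.1 hw'0
  have e1 : (a + r) / w - a / w' = r / w - a / w' * d / w := by
    have e2 : d = w - w' := by rw [hw']; ring
    rw [e2]
    field_simp
    ring
  have h1 : |a / w'| ≤ Mc := by
    rw [abs_div, div_le_iff₀ hw'0]
    exact ha
  have hMc : 0 ≤ Mc := (abs_nonneg _).trans h1
  have hinv : ∀ y M : ℝ, |y| ≤ M → |y / w| ≤ 2 * (θ / δ) * M := by
    intro y M hy
    have hM : 0 ≤ M := (abs_nonneg _).trans hy
    rw [abs_div, div_le_iff₀ hw0]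
    have h2 : 1 ≤ 2 * (θ / δ) * |w| := by
      have : 2 * (θ / δ) * |w| = 2 * (θ * |w|) / δ := by ring
      rw [this, le_div_iff₀ hδ]
      linarith
    calc |y| ≤ M * 1 := by rwa [mul_one]
      _ ≤ M * (2 * (θ / δ) * |w|) := mul_le_mul_of_nonneg_left h2 hM
      _ = _ := by ring
  have h2 := hinv r Rr hr
  have h3 := hinv (a / w' * d) (Mc * ed) (by
    rw [abs_mul]
    exact mul_le_mul h1 hd (abs_nonneg _) hMc)
  rw [e1]
  refine (abs_sub _ _).trans ?_
  linarith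

/-- **The hypotheses of the triangle.** -/
theorem ch2_tri (D : ℕ) : ∃ K : ℝ, 1 ≤ K ∧ ∀ (N : ℕ) (qr cr qq cq : ℕ → ℝ[X])
    (n0 n1 n2 n3 nr nq u0 u1 u2 u3 ur uq C2 C3 : ℝ[X])
    (A B c c0 H ρ0 ρt δ θ κ ε1 e2 X M1 M2 Mc eu en ed ec enc : ℝ),
    (chE N qr cr n2 nr u2 ur).natDegree ≤ D → (chE N qq cq n3 nq u3 uq).natDegree ≤ D →
    (QS N (fun k => derivative (qq k)) cq (u3 - uq) - C3).natDegree ≤ D →
    0 < ρ0 → ρ0 ≤ 1 / 2 → 2 * (eu + ed + ec) ≤ H →
    Ch2 N qr cr qq cq n0 n1 n2 n3 nr nq u0 u1 u2 u3 ur uq C2 C3 A B c c0 H ρ0 ρt δ θ κ ε1 e2 X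
      M1 M2 Mc eu en ed ec enc →
    Tri (chE0 N qr cr qq cq n0 nr nq u0 ur uq c) (chE N qq cq n1 nq u1 uq)
      (chE N qq cq n3 nq u3 uq) (u0 - ur + C (ur.eval c - uq.eval c)) (u1 - uq) A B c0 ρ0 ρt δ θ
      κ ε1 X (en + enc + K * (ε1 * ρ0 + e2 * ec) + 3 * M1 * (eu + ed) + M2 * (eu + ed + ec) ^ 2)
      (2 * (eu + ed + ec)) := by
  obtain ⟨K₀, hK₀, hmk⟩ := mkv D
  refine ⟨4 * K₀, by linarith, ?_⟩
  intro N qr cr qq cq n0 n1 n2 n3 nr nq u0 u1 u2 u3 ur uq C2 C3 A B c c0 H ρ0 ρt δ θ κ ε1 e2 X M1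
    M2 Mc eu en ed ec enc hdr hdq hdC hρ hρ2 hH R
  obtain ⟨hA0, hnA, hB0, hnB⟩ := (⟨R.uA, R.nA, R.uB, R.nB⟩ : _ ∧ _ ∧ _ ∧ _)
  have heu : 0 ≤ eu := (abs_nonneg _).trans R.uA
  have hen : 0 ≤ en := (abs_nonneg _).trans R.nA
  have hec : 0 ≤ ec := (abs_nonneg _).trans R.uC
  have henc : 0 ≤ enc := (abs_nonneg _).trans R.nC
  have hed : 0 ≤ ed := (abs_nonneg _).trans (R.dr 0 (by rw [abs_zero]; norm_num))
  have hε1 : 0 ≤ ε1 := (abs_nonneg _).trans (R.rr 0 (by rw [abs_zero]; norm_num))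
  have he2 : 0 ≤ e2 := (abs_nonneg _).trans (R.cq3 0 (by rw [abs_zero]; norm_num))
  have hH0 : 0 ≤ H / 2 := by linarith
  have hm0 := R.mr 0 0 (by rw [abs_zero]; norm_num) (by rw [abs_zero]; linarith)
  have hM1 : 0 ≤ M1 := (abs_nonneg _).trans hm0.1
  have hM2 : 0 ≤ M2 := (abs_nonneg _).trans hm0.2.1
  have hnear : ∀ z : ℝ, |z - c0| ≤ ρ0 → |z| ≤ 3 / 2 := fun z hz => by
    have := abs_add_le (z - c0) c0
    rw [sub_add_cancel] at this
    linarith [R.hc0]
  have hA2 : |A| ≤ 2 := (hnear A R.hA).trans (by norm_num)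
  have hB2 : |B| ≤ 2 := (hnear B R.hB).trans (by norm_num)
  have hC2 : |c| ≤ 2 := (hnear c R.hC).trans (by norm_num)
  -- the errors of the parallel lines
  have her : ∀ s : ℝ, |s| ≤ 2 → |(derivative (chE N qr cr n2 nr u2 ur)).eval s| ≤ K₀ * ε1 :=
    fun s hs => by
      have := (hmk _ 0 1 ε1 hdr one_pos (fun s hs => R.rr s (by rwa [sub_zero] at hs)) s
        (by rw [sub_zero]; linarith)).2
      rwa [div_one] at this
  have heq : ∀ s : ℝ, |s| ≤ 2 → |(derivative (chE N qq cq n3 nq u3 uq)).eval s| ≤ K₀ * ε1 :=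
    fun s hs => by
      have := (hmk _ 0 1 ε1 hdq one_pos (fun s hs => R.rq s (by rwa [sub_zero] at hs)) s
        (by rw [sub_zero]; linarith)).2
      rwa [div_one] at this
  have i1 := inc R.hc0 hρ2 her R.hA R.hC
  have i2 := inc R.hc0 hρ2 heq R.hC R.hA
  have i3 := inc R.hc0 hρ2 R.dr R.hA R.hC
  have i4 := inc R.hc0 hρ2 R.dq R.hC R.hB
  have hCc : |(derivative (QP N qq cq c)).eval (u3.eval c - uq.eval c) - C3.eval c| ≤
      K₀ * e2 := by
    have h1 := (hmk _ 0 1 e2 hdC one_pos (fun s hs => R.cq3 s (by rwa [sub_zero] at hs)) c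
      (by rw [sub_zero]; linarith)).1
    rw [eval_sub, QS'_eval, eval_sub] at h1
    exact h1
  -- the heights
  have hedρ : ed * ρ0 ≤ ed * (1 / 2) := mul_le_mul_of_nonneg_left hρ2 hed
  have hrA : |(u2 - ur).eval A| ≤ H / 2 := R.hr A hA2
  have hrc : |(u2 - ur).eval c| ≤ H / 2 := R.hr c hC2
  have hqc : |(u3 - uq).eval c| ≤ H / 2 := R.hq c hC2
  have hqB : |(u3 - uq).eval B| ≤ H / 2 := R.hq B hB2
  rw [eval_sub] at hrA hrc hqc hqB
  rw [eval_sub, eval_sub] at i3 i4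
  obtain ⟨hgA, ehgA⟩ : ∃ x, x = u0.eval A - ur.eval A := ⟨_, rfl⟩
  obtain ⟨rA, erA⟩ : ∃ x, x = u2.eval A - ur.eval A := ⟨_, rfl⟩
  obtain ⟨rc, erc⟩ : ∃ x, x = u2.eval c - ur.eval c := ⟨_, rfl⟩
  obtain ⟨qc, eqc⟩ : ∃ x, x = u3.eval c - uq.eval c := ⟨_, rfl⟩
  obtain ⟨qB, eqB⟩ : ∃ x, x = u3.eval B - uq.eval B := ⟨_, rfl⟩
  obtain ⟨hgB, ehgB⟩ : ∃ x, x = u1.eval B - uq.eval B := ⟨_, rfl⟩
  obtain ⟨v, ev⟩ : ∃ x, x = ur.eval c - uq.eval c := ⟨_, rfl⟩
  have j1 : |hgA - rA| ≤ eu := by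
    rw [ehgA, erA, sub_sub_sub_cancel_right]
    exact R.uA
  have j2 : |hgA - rc| ≤ eu + ed := by
    have h1 := abs_sub_le hgA rA rc
    rw [← erA, ← erc] at i3
    linarith
  have j3 : |hgA + v - qc| ≤ eu + ed + ec := by
    have e1 : hgA + v - qc = (hgA - rc) + (u2.eval c - u3.eval c) := by
      rw [ev, eqc, erc]
      ring
    rw [e1]
    refine (abs_add_le _ _).trans ?_
    linarith [R.uC]
  have j4 : |hgB - qB| ≤ eu := by
    rw [ehgB, eqB, sub_sub_sub_cancel_right]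
    exact R.uB
  rw [← erA] at hrA
  rw [← erc] at hrc
  rw [← eqc] at hqc hCc
  rw [← eqB] at hqB
  rw [← eqc, ← eqB] at i4
  -- the charts
  have k1 := inch (P := QP N qr cr A) (fun s hs => (R.mr A s hA2 hs).1) hrA j1 (by linarith)
  have k2 := inch (P := QP N qr cr c) (fun s hs => (R.mr c s hC2 hs).1) hrc j2 (by linarith)
  have k3 := tay (QP N qq cq c) (a := qc) (b := hgA + v) (M := M2) fun s hs => by
    refine (R.mq c s hC2 ?_).2.1
    have := abs_add_le (s - qc) qc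
    rw [sub_add_cancel] at this
    linarith
  have k4 := inch (P := QP N qq cq B) (fun s hs => (R.mq B s hB2 hs).1) hqB j4 (by linarith)
  have k5 := (R.mq c qc hC2 (by linarith)).1
  -- the value at the first star
  have vA : (chE0 N qr cr qq cq n0 nr nq u0 ur uq c).eval A -
      (chE N qq cq n3 nq u3 uq).eval A =
      (n0.eval A - n2.eval A) +
      ((chE N qr cr n2 nr u2 ur).eval A - (chE N qr cr n2 nr u2 ur).eval c) +
      ((chE N qq cq n3 nq u3 uq).eval c - (chE N qq cq n3 nq u3 uq).eval A) -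
      ((QP N qr cr A).eval hgA - (QP N qr cr A).eval rA) +
      ((QP N qr cr c).eval hgA - (QP N qr cr c).eval rc) +
      (n2.eval c - n3.eval c - C3.eval c * (u2.eval c - u3.eval c)) -
      ((QP N qq cq c).eval (hgA + v) - (QP N qq cq c).eval qc -
        (derivative (QP N qq cq c)).eval qc * (hgA + v - qc)) -
      ((derivative (QP N qq cq c)).eval qc - C3.eval c) * (u2.eval c - u3.eval c) -
      (derivative (QP N qq cq c)).eval qc * (hgA - rc) := by
    have e1 : hgA + v - qc = (hgA - rc) + (u2.eval c - u3.eval c) := by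
      rw [ev, eqc, erc]
      ring
    rw [e1]
    unfold chE0 chE
    simp only [eval_sub, eval_add, eval_C, eval_comp, QS_eval]
    rw [← ehgA, ← erA, ← erc, ← eqc, ← ev]
    ring
  have a1 : |((derivative (QP N qq cq c)).eval qc - C3.eval c) * (u2.eval c - u3.eval c)| ≤
      K₀ * e2 * ec := by
    rw [abs_mul]
    exact mul_le_mul hCc R.uC (abs_nonneg _) (by positivity)
  have a2 : |(derivative (QP N qq cq c)).eval qc * (hgA - rc)| ≤ M1 * (eu + ed) := by
    rw [abs_mul]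
    exact mul_le_mul k5 j2 (abs_nonneg _) hM1
  have a3 : M2 * |hgA + v - qc| * |hgA + v - qc| ≤ M2 * (eu + ed + ec) ^ 2 := by
    have h1 := mul_le_mul j3 j3 (abs_nonneg _) (by linarith)
    calc M2 * |hgA + v - qc| * |hgA + v - qc| = M2 * (|hgA + v - qc| * |hgA + v - qc|) := by ring
      _ ≤ M2 * ((eu + ed + ec) * (eu + ed + ec)) := mul_le_mul_of_nonneg_left h1 hM2
      _ = _ := by ring
  have hM1e : M1 * eu ≤ M1 * (eu + ed) := mul_le_mul_of_nonneg_left (by linarith) hM1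
  have hsq : 0 ≤ M2 * (eu + ed + ec) ^ 2 := by positivity
  have hKe : 0 ≤ K₀ * (ε1 * ρ0) := by positivity
  have hKc : 0 ≤ K₀ * (e2 * ec) := by positivity
  have hM1n : 0 ≤ M1 * (eu + ed) := by positivity
  refine ⟨R.hc0, R.hA, R.hB, R.g0, ?_, R.g1, ?_, R.rq, ?_, R.d1, ?_, R.s1, ?_⟩
  · rw [vA]
    have t1 := abs_le.1 hnA
    have t2 := abs_le.1 i1
    have t3 := abs_le.1 i2
    have t4 := abs_le.1 k1
    have t5 := abs_le.1 k2
    have t6 := abs_le.1 R.nC
    have t7 := abs_le.1 (k3.trans a3)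
    have t8 := abs_le.1 a1
    have t9 := abs_le.1 a2
    rw [abs_le]
    constructor <;> linarith [t1.1, t1.2, t2.1, t2.2, t3.1, t3.2, t4.1, t4.2, t5.1, t5.2, t6.1,
      t6.2, t7.1, t7.2, t8.1, t8.2, t9.1, t9.2, hM1e, hKe, hKc, hM1n, hsq]
  · have vB : (chE N qq cq n1 nq u1 uq).eval B - (chE N qq cq n3 nq u3 uq).eval B =
        (n1.eval B - n3.eval B) - ((QP N qq cq B).eval hgB - (QP N qq cq B).eval qB) := by
      unfold chE
      simp only [eval_sub, QS_eval]
      rw [← ehgB, ← eqB]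
      ring
    rw [vB]
    have t1 := abs_le.1 hnB
    have t4 := abs_le.1 k4
    rw [abs_le]
    constructor <;> linarith [t1.1, t1.2, t4.1, t4.2, hM1e, hKe, hKc, hM1n, hsq]
  · intro s hs
    have e1 : derivative (derivative (u0 - ur + C (ur.eval c - uq.eval c))) =
        derivative (derivative (u0 - ur)) := by
      rw [derivative_add, derivative_C, add_zero]
    rw [e1]
    exact R.d0 s hs
  · rw [derivative_add, derivative_C, add_zero]
    exact R.s0
  · have e1 : (u0 - ur + C (ur.eval c - uq.eval c)).eval A - (u1 - uq).eval B =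
        (hgA + v - qc) + (qc - qB) - (hgB - qB) := by
      simp only [eval_sub, eval_add, eval_C]
      rw [← ehgA, ← ev, ← ehgB]
      ring
    rw [e1]
    have t1 := abs_le.1 j3
    have t2 := abs_le.1 i4
    have t3 := abs_le.1 j4
    rw [abs_le]
    constructor <;> linarith [t1.1, t1.2, t2.1, t2.2, t3.1, t3.2]

/-- **The conclusion of the triangle**: with `e (A)`, `e (B)` the quotients at the outer stars minus
the slopes, `e (A) + (C2 - C3) (c) - e (B)` is small. -/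
theorem ch2_der (D : ℕ) : ∃ K : ℝ, 1 ≤ K ∧ ∀ (N : ℕ) (qr cr qq cq : ℕ → ℝ[X])
    (n0 n1 n2 n3 nr nq u0 u1 u2 u3 ur uq C2 C3 : ℝ[X])
    (A B c c0 H ρ0 ρt δ θ κ ε1 e2 X M1 M2 Mc eu en ed ec enc : ℝ),
    (chE N qr cr n2 nr u2 ur).natDegree ≤ D → (chE N qq cq n3 nq u3 uq).natDegree ≤ D →
    (QS N (fun k => derivative (qr k)) cr (u2 - ur) - C2).natDegree ≤ D →
    (QS N (fun k => derivative (qq k)) cq (u3 - uq) - C3).natDegree ≤ D →
    0 < ρ0 → ρ0 ≤ 1 / 2 → 2 * (eu + ed + ec) ≤ H → 0 < δ → 1 ≤ θ → θ * κ * ρ0 ≤ δ / 2 →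
    4 * θ * ed ≤ δ →
    Ch2 N qr cr qq cq n0 n1 n2 n3 nr nq u0 u1 u2 u3 ur uq C2 C3 A B c c0 H ρ0 ρt δ θ κ ε1 e2 X
      M1 M2 Mc eu en ed ec enc →
    ∀ G : ℝ, |((derivative (chE0 N qr cr qq cq n0 nr nq u0 ur uq c)).eval A -
        (derivative (chE N qq cq n3 nq u3 uq)).eval A) /
          (derivative (u0 - ur + C (ur.eval c - uq.eval c))).eval A -
        ((derivative (chE N qq cq n1 nq u1 uq)).eval B -
          (derivative (chE N qq cq n3 nq u3 uq)).eval B) / (derivative (u1 - uq)).eval B| ≤ G →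
      |((derivative (n0 - n2)).eval A / (derivative (u0 - u2)).eval A - C2.eval A) +
        (C2.eval c - C3.eval c) -
        ((derivative (n1 - n3)).eval B / (derivative (u1 - u3)).eval B - C3.eval B)| ≤
        G + K * (e2 * ρ0 + θ / δ * (ε1 + (M1 + Mc) * ed + M2 * eu) + M2 * (eu + ed + ec)) := by
  obtain ⟨K₀, hK₀, hmk⟩ := mkv D
  refine ⟨16 * K₀, by linarith, ?_⟩
  intro N qr cr qq cq n0 n1 n2 n3 nr nq u0 u1 u2 u3 ur uq C2 C3 A B c c0 H ρ0 ρt δ θ κ ε1 e2 X M1
    M2 Mc eu en ed ec enc hdr hdq hdR hdC hρ hρ2 hH hδ hθ hθκ hθd R G hG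
  have hθ0 : 0 < θ := by linarith
  have heu : 0 ≤ eu := (abs_nonneg _).trans R.uA
  have hec : 0 ≤ ec := (abs_nonneg _).trans R.uC
  have hed : 0 ≤ ed := (abs_nonneg _).trans (R.dr 0 (by rw [abs_zero]; norm_num))
  have hκ : 0 ≤ κ := (abs_nonneg _).trans (R.d0 0 (by rw [abs_zero]; norm_num))
  have hε1 : 0 ≤ ε1 := (abs_nonneg _).trans (R.rr 0 (by rw [abs_zero]; norm_num))
  have he2 : 0 ≤ e2 := (abs_nonneg _).trans (R.cq3 0 (by rw [abs_zero]; norm_num))
  have hm0 := R.mr 0 0 (by rw [abs_zero]; norm_num) (by rw [abs_zero]; linarith)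
  have hM1 : 0 ≤ M1 := (abs_nonneg _).trans hm0.1
  have hM2 : 0 ≤ M2 := (abs_nonneg _).trans hm0.2.1
  have hnear : ∀ z : ℝ, |z - c0| ≤ ρ0 → |z| ≤ 3 / 2 := fun z hz => by
    have := abs_add_le (z - c0) c0
    rw [sub_add_cancel] at this
    linarith [R.hc0]
  have hA2 : |A| ≤ 2 := (hnear A R.hA).trans (by norm_num)
  have hB2 : |B| ≤ 2 := (hnear B R.hB).trans (by norm_num)
  have hC2 : |c| ≤ 2 := (hnear c R.hC).trans (by norm_num)
  have hmk' : ∀ (P : ℝ[X]) (S : ℝ), P.natDegree ≤ D → (∀ s : ℝ, |s| ≤ 1 → |P.eval s| ≤ S) →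
      ∀ s : ℝ, |s| ≤ 2 → |(derivative P).eval s| ≤ K₀ * S := fun P S hP hS s hs => by
    have := (hmk P 0 1 S hP one_pos (fun s hs => hS s (by rwa [sub_zero] at hs)) s
      (by rw [sub_zero]; linarith)).2
    rwa [div_one] at this
  have her := hmk' _ _ hdr R.rr
  have heq := hmk' _ _ hdq R.rq
  have i1 := inc R.hc0 hρ2 (hmk' _ _ hdR R.cr2) R.hC R.hA
  have i2 := inc R.hc0 hρ2 (hmk' _ _ hdC R.cq3) R.hB R.hC
  have i3 := inc R.hc0 hρ2 R.dr R.hA R.hC
  -- the slopes at the outer stars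
  have hslope : ∀ (P : ℝ[X]) (z : ℝ), (∀ s : ℝ, |s| ≤ 2 → |(derivative (derivative P)).eval s| ≤ κ) →
      |z - c0| ≤ ρ0 → δ ≤ θ * |(derivative P).eval c0| → δ / 2 ≤ θ * |(derivative P).eval z| := by
    intro P z hP hz h0
    have h1 := mvt (derivative P) (a := c0) (b := z) (M := κ) fun s hs => hP s (by
      have := abs_add_le (s - c0) c0
      rw [sub_add_cancel] at this
      linarith [R.hc0])
    have h2 : κ * |z - c0| ≤ κ * ρ0 := mul_le_mul_of_nonneg_left hz hκ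
    have h3 : |(derivative P).eval c0| ≤ |(derivative P).eval z| + κ * ρ0 := by
      have := abs_sub_le ((derivative P).eval c0) ((derivative P).eval z) 0
      rw [sub_zero, sub_zero, abs_sub_comm ((derivative P).eval c0)] at this
      linarith
    have h4 := mul_le_mul_of_nonneg_left h3 hθ0.le
    have e1 : θ * (|(derivative P).eval z| + κ * ρ0) = θ * |(derivative P).eval z| + θ * κ * ρ0 := by
      ring
    linarith
  have sA := hslope _ A R.d0 R.hA R.s0
  have sB := hslope _ B R.d1 R.hB R.s1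
  -- the heights
  have hedρ : ed * ρ0 ≤ ed * (1 / 2) := mul_le_mul_of_nonneg_left hρ2 hed
  have hrA : |(u2 - ur).eval A| ≤ H / 2 := R.hr A hA2
  have hrc : |(u2 - ur).eval c| ≤ H / 2 := R.hr c hC2
  have hqc : |(u3 - uq).eval c| ≤ H / 2 := R.hq c hC2
  have hqB : |(u3 - uq).eval B| ≤ H / 2 := R.hq B hB2
  rw [eval_sub] at hrA hrc hqc hqB
  rw [eval_sub, eval_sub] at i3
  obtain ⟨hgA, ehgA⟩ : ∃ x, x = u0.eval A - ur.eval A := ⟨_, rfl⟩
  obtain ⟨rA, erA⟩ : ∃ x, x = u2.eval A - ur.eval A := ⟨_, rfl⟩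
  obtain ⟨rc, erc⟩ : ∃ x, x = u2.eval c - ur.eval c := ⟨_, rfl⟩
  obtain ⟨qc, eqc⟩ : ∃ x, x = u3.eval c - uq.eval c := ⟨_, rfl⟩
  obtain ⟨qB, eqB⟩ : ∃ x, x = u3.eval B - uq.eval B := ⟨_, rfl⟩
  obtain ⟨hgB, ehgB⟩ : ∃ x, x = u1.eval B - uq.eval B := ⟨_, rfl⟩
  obtain ⟨v, ev⟩ : ∃ x, x = ur.eval c - uq.eval c := ⟨_, rfl⟩
  have j1 : |hgA - rA| ≤ eu := by
    rw [ehgA, erA, sub_sub_sub_cancel_right]
    exact R.uA
  have j2 : |hgA - rc| ≤ eu + ed := by
    have h1 := abs_sub_le hgA rA rc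
    rw [← erA, ← erc] at i3
    linarith
  have j3 : |hgA + v - qc| ≤ eu + ed + ec := by
    have e1 : hgA + v - qc = (hgA - rc) + (u2.eval c - u3.eval c) := by
      rw [ev, eqc, erc]
      ring
    rw [e1]
    refine (abs_add_le _ _).trans ?_
    linarith [R.uC]
  have j4 : |hgB - qB| ≤ eu := by
    rw [ehgB, eqB, sub_sub_sub_cancel_right]
    exact R.uB
  rw [← erA] at hrA
  rw [← erc] at hrc
  rw [← eqc] at hqc
  rw [← eqB] at hqB
  -- the charts
  have k1 := inch (P := derivative (QP N qr cr A)) (fun s hs => (R.mr A s hA2 hs).2.1) hrA j1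
    (by linarith)
  have k2 := inch (P := derivative (QP N qr cr c)) (fun s hs => (R.mr c s hC2 hs).2.1) hrc j2
    (by linarith)
  have k3 := inch (P := derivative (QP N qq cq c)) (fun s hs => (R.mq c s hC2 hs).2.1) hqc j3
    (by linarith)
  have k4 := inch (P := derivative (QP N qq cq B)) (fun s hs => (R.mq B s hB2 hs).2.1) hqB j4
    (by linarith)
  have k5 := inch (P := QP N qr (fun k => derivative (cr k)) A)
    (fun s hs => (R.mr A s hA2 hs).2.2) hrA j1 (by linarith)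
  have k6 := inch (P := QP N qq (fun k => derivative (cq k)) B)
    (fun s hs => (R.mq B s hB2 hs).2.2) hqB j4 (by linarith)
  have k7 := (R.mr A rA hA2 (by linarith)).1
  have k8 := (R.mq B qB hB2 (by linarith)).1
  -- the derivatives
  obtain ⟨w0, ew0⟩ : ∃ x, x = (derivative (u0 - ur)).eval A := ⟨_, rfl⟩
  obtain ⟨w1, ew1⟩ : ∃ x, x = (derivative (u1 - uq)).eval B := ⟨_, rfl⟩
  obtain ⟨dA, edA⟩ : ∃ x, x = (derivative (u2 - ur)).eval A := ⟨_, rfl⟩
  obtain ⟨dB, edB⟩ : ∃ x, x = (derivative (u3 - uq)).eval B := ⟨_, rfl⟩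
  have hdA := R.dr A hA2
  have hdB := R.dq B hB2
  rw [← edA] at hdA
  rw [← edB] at hdB
  rw [← ew0] at sA
  rw [← ew1] at sB
  have hwA : (derivative (u0 - u2)).eval A = w0 - dA := by
    rw [ew0, edA]
    simp only [derivative_sub, eval_sub]
    ring
  have hwB : (derivative (u1 - u3)).eval B = w1 - dB := by
    rw [ew1, edB]
    simp only [derivative_sub, eval_sub]
    ring
  obtain ⟨r0, er0⟩ : ∃ x, x = (derivative (chE N qr cr n2 nr u2 ur)).eval A -
      (derivative (chE N qq cq n3 nq u3 uq)).eval A +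
      (derivative (QP N qr cr A)).eval rA * dA -
      ((QP N qr (fun k => derivative (cr k)) A).eval hgA -
        (QP N qr (fun k => derivative (cr k)) A).eval rA) := ⟨_, rfl⟩
  obtain ⟨r1, er1⟩ : ∃ x, x = (derivative (QP N qq cq B)).eval qB * dB -
      ((QP N qq (fun k => derivative (cq k)) B).eval hgB -
        (QP N qq (fun k => derivative (cq k)) B).eval qB) := ⟨_, rfl⟩
  have b0 : |r0| ≤ 2 * (K₀ * ε1) + M1 * ed + M2 * eu := by
    have t1 := abs_le.1 (her A hA2)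
    have t2 := abs_le.1 (heq A hA2)
    have t3 : |(derivative (QP N qr cr A)).eval rA * dA| ≤ M1 * ed := by
      rw [abs_mul]
      exact mul_le_mul k7 hdA (abs_nonneg _) hM1
    have t3 := abs_le.1 t3
    have t4 := abs_le.1 k5
    rw [er0, abs_le]
    constructor <;> linarith [t1.1, t1.2, t2.1, t2.2, t3.1, t3.2, t4.1, t4.2]
  have b1 : |r1| ≤ 2 * (K₀ * ε1) + M1 * ed + M2 * eu := by
    have t3 : |(derivative (QP N qq cq B)).eval qB * dB| ≤ M1 * ed := by
      rw [abs_mul]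
      exact mul_le_mul k8 hdB (abs_nonneg _) hM1
    have t3 := abs_le.1 t3
    have t4 := abs_le.1 k6
    have t5 : 0 ≤ K₀ * ε1 := by positivity
    rw [er1, abs_le]
    constructor <;> linarith [t3.1, t3.2, t4.1, t4.2]
  have hqA := R.qA
  have hqB' := R.qB
  rw [hwA] at hqA
  rw [hwB] at hqB'
  have q0 := quo_star hδ hθ sA hdA hθd rfl hqA b0
  have q1 := quo_star hδ hθ sB hdB hθd rfl hqB' b1
  have hw0n : w0 ≠ 0 := by
    rintro h
    rw [h, abs_zero, mul_zero] at sA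
    linarith
  have hw1n : w1 ≠ 0 := by
    rintro h
    rw [h, abs_zero, mul_zero] at sB
    linarith
  -- the left side
  have l0 : ((derivative (chE0 N qr cr qq cq n0 nr nq u0 ur uq c)).eval A -
        (derivative (chE N qq cq n3 nq u3 uq)).eval A) /
          (derivative (u0 - ur + C (ur.eval c - uq.eval c))).eval A =
      ((derivative (n0 - n2)).eval A + r0) / w0 - (derivative (QP N qr cr A)).eval hgA +
        (derivative (QP N qr cr c)).eval hgA - (derivative (QP N qq cq c)).eval (hgA + v) := by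
    have e1 : (derivative (u0 - ur + C (ur.eval c - uq.eval c))).eval A = w0 := by
      rw [derivative_add, derivative_C, add_zero, ew0]
    have e2 : (derivative (chE0 N qr cr qq cq n0 nr nq u0 ur uq c)).eval A -
        (derivative (chE N qq cq n3 nq u3 uq)).eval A = (derivative (n0 - n2)).eval A + r0 +
        (-(derivative (QP N qr cr A)).eval hgA + (derivative (QP N qr cr c)).eval hgA -
          (derivative (QP N qq cq c)).eval (hgA + v)) * w0 := by
      rw [er0]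
      unfold chE0 chE
      simp only [derivative_sub, derivative_add, derivative_C, derivative_comp, eval_sub, eval_add,
        eval_mul, eval_comp, eval_C, QS_der, eval_zero, add_zero, zero_add]
      rw [edA, ew0]
      simp only [derivative_sub, eval_sub]
      rw [← ehgA, ← erA, ← ev]
      ring
    rw [e1, e2]
    field_simp
    ring
  have l1 : ((derivative (chE N qq cq n1 nq u1 uq)).eval B -
          (derivative (chE N qq cq n3 nq u3 uq)).eval B) / (derivative (u1 - uq)).eval B =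
      ((derivative (n1 - n3)).eval B + r1) / w1 - (derivative (QP N qq cq B)).eval hgB := by
    have e2 : (derivative (chE N qq cq n1 nq u1 uq)).eval B -
        (derivative (chE N qq cq n3 nq u3 uq)).eval B = (derivative (n1 - n3)).eval B + r1 +
        (-(derivative (QP N qq cq B)).eval hgB) * w1 := by
      rw [er1]
      unfold chE
      simp only [derivative_sub, eval_sub, QS_der]
      rw [edB, ew1]
      simp only [derivative_sub, eval_sub]
      rw [← ehgB, ← eqB]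
      ring
    rw [← ew1, e2]
    field_simp
    ring
  rw [l0, l1] at hG
  rw [hwA, hwB]
  -- the slopes of the charts
  simp only [eval_sub, QS'_eval] at i1 i2
  rw [← erc, ← erA] at i1
  rw [← eqB, ← eqc] at i2
  have t0 := abs_le.1 hG
  have t1 := abs_le.1 q0
  have t2 := abs_le.1 q1
  have t3 := abs_le.1 k1
  have t4 := abs_le.1 k2
  have t5 := abs_le.1 k3
  have t6 := abs_le.1 k4
  have t7 := abs_le.1 i1
  have t8 := abs_le.1 i2
  have hKM : M2 * (eu + ed + ec) ≤ K₀ * (M2 * (eu + ed + ec)) :=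
    le_mul_of_one_le_left (by positivity) hK₀
  have hM2a : M2 * eu ≤ M2 * (eu + ed + ec) := mul_le_mul_of_nonneg_left (by linarith) hM2
  have hM2b : M2 * (eu + ed) ≤ M2 * (eu + ed + ec) := mul_le_mul_of_nonneg_left (by linarith) hM2
  have hMc : 0 ≤ Mc * ed := by
    have h1 : 0 ≤ Mc * |w0 - dA| := (abs_nonneg _).trans hqA
    rcases hed.eq_or_lt with h | h
    · rw [← h, mul_zero]
    · have h2 : 0 < |w0 - dA| := by
        rw [abs_pos]
        intro h3
        have h4 : |w0| ≤ ed := by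
          have : w0 = dA := by linarith
          rw [this]
          exact hdA
        have h5 := mul_le_mul_of_nonneg_left h4 hθ0.le
        linarith
      have h3 : 0 ≤ Mc := nonneg_of_mul_nonneg_left h1 h2
      positivity
  obtain ⟨Y, hY⟩ : ∃ Y, Y = θ / δ * (ε1 + (M1 + Mc) * ed + M2 * eu) := ⟨_, rfl⟩
  have hYb : 2 * (θ / δ) * (2 * (K₀ * ε1) + M1 * ed + M2 * eu + Mc * ed) ≤ 4 * K₀ * Y := by
    rw [hY]
    have h0 : 0 ≤ θ / δ := by positivity
    have h1 : 2 * (K₀ * ε1) + M1 * ed + M2 * eu + Mc * ed ≤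
        2 * K₀ * (ε1 + (M1 + Mc) * ed + M2 * eu) := by
      have h2 : 0 ≤ M1 * ed + M2 * eu + Mc * ed := by
        have := mul_nonneg hM1 hed
        have := mul_nonneg hM2 heu
        linarith
      have h3 : M1 * ed + M2 * eu + Mc * ed ≤ 2 * K₀ * (M1 * ed + M2 * eu + Mc * ed) :=
        le_mul_of_one_le_left h2 (by linarith)
      linarith
    have h2 := mul_le_mul_of_nonneg_left h1 h0
    linarith
  have hfin : 16 * K₀ * (e2 * ρ0 + Y + M2 * (eu + ed + ec)) =
      16 * (K₀ * e2 * ρ0) + 16 * (K₀ * Y) + 16 * (K₀ * (M2 * (eu + ed + ec))) := by ring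
  rw [← hY, hfin]
  have hKe : 0 ≤ K₀ * e2 * ρ0 := by positivity
  have hY0 : 0 ≤ K₀ * Y := by
    have h1 : 0 ≤ ε1 + (M1 + Mc) * ed + M2 * eu := by
      have h2 := mul_nonneg hM1 hed
      have h3 := mul_nonneg hM2 heu
      linarith
    rw [hY]
    positivity
  have hMM : 0 ≤ M2 * (eu + ed + ec) := by positivity
  rw [abs_le]
  constructor
  · linarith [t0.1, t0.2, t1.1, t1.2, t2.1, t2.2, t3.1, t3.2, t4.1, t4.2, t5.1, t5.2, t6.1, t6.2,
      t7.1, t7.2, t8.1, t8.2]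
  · linarith [t0.1, t0.2, t1.1, t1.2, t2.1, t2.2, t3.1, t3.2, t4.1, t4.2, t5.1, t5.2, t6.1, t6.2,
      t7.1, t7.2, t8.1, t8.2]

/-- The inner star at `T`, moved to `c`. -/
theorem star_move {n2 n3 u2 u3 C3 : ℝ[X]} {T c η eu en U V : ℝ} (hc : |c - T| ≤ η)
    (hu : |u2.eval T - u3.eval T| ≤ eu) (hn : |n2.eval T - n3.eval T| ≤ en)
    (hU : ∀ s : ℝ, |s - T| ≤ η → |(derivative (u2 - u3)).eval s| ≤ U)
    (hV : ∀ s : ℝ, |s - T| ≤ η → |(derivative (n2 - n3)).eval s -
      C3.eval c * (derivative (u2 - u3)).eval s| ≤ V) :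
    |u2.eval c - u3.eval c| ≤ eu + U * η ∧
    |n2.eval c - n3.eval c - C3.eval c * (u2.eval c - u3.eval c)| ≤
      en + |C3.eval c| * eu + V * η := by
  have hU0 : 0 ≤ U := (abs_nonneg _).trans (hU c hc)
  have hV0 : 0 ≤ V := (abs_nonneg _).trans (hV c hc)
  constructor
  · have h1 := mvt (u2 - u3) (a := T) (b := c) (M := U) fun s hs => hU s (hs.trans hc)
    have h2 := mul_le_mul_of_nonneg_left hc hU0
    rw [eval_sub, eval_sub] at h1
    have h3 := abs_add_le (u2.eval c - u3.eval c - (u2.eval T - u3.eval T)) (u2.eval T - u3.eval T)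
    rw [sub_add_cancel] at h3
    linarith
  · have h1 := mvt (n2 - n3 - C (C3.eval c) * (u2 - u3)) (a := T) (b := c) (M := V)
      fun s hs => by
        have h2 := hV s (hs.trans hc)
        rw [derivative_sub, derivative_mul, derivative_C, zero_mul, zero_add, eval_sub, eval_mul,
          eval_C]
        exact h2
    have h2 := mul_le_mul_of_nonneg_left hc hV0
    simp only [eval_sub, eval_mul, eval_C] at h1
    have h3 : |n2.eval T - n3.eval T - C3.eval c * (u2.eval T - u3.eval T)| ≤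
        en + |C3.eval c| * eu := by
      refine (abs_sub _ _).trans ?_
      rw [abs_mul]
      have := mul_le_mul_of_nonneg_left hu (abs_nonneg (C3.eval c))
      linarith
    have h4 := abs_add_le (n2.eval c - n3.eval c - C3.eval c * (u2.eval c - u3.eval c) -
      (n2.eval T - n3.eval T - C3.eval c * (u2.eval T - u3.eval T)))
      (n2.eval T - n3.eval T - C3.eval c * (u2.eval T - u3.eval T))
    rw [sub_add_cancel] at h4
    linarith

/-- The levels of the two parallel lines: `nr = gr + level`, `nq = gq + level`. -/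
theorem chE0_level (N : ℕ) (qr cr qq cq : ℕ → ℝ[X]) (n0 gr gq u0 ur uq : ℝ[X]) (lr lq c : ℝ) :
    chE0 N qr cr qq cq n0 (gr + C lr) (gq + C lq) u0 ur uq c =
      chE0 N qr cr qq cq n0 gr gq u0 ur uq c - C lq := by
  unfold chE0
  simp only [eval_add, eval_C, map_sub, map_add]
  ring

theorem chE_level (N : ℕ) (q c : ℕ → ℝ[X]) (g gq u uq : ℝ[X]) (l lq : ℝ) :
    chE N q c (g + C l) (gq + C lq) u uq = chE N q c g gq u uq + C (l - lq) := by
  unfold chE
  rw [map_sub]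
  ring

end Pool.SL73
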