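import Pool.Agent.H73.SL.Drp
import Pool.Agent.H66.NDD.Nod

/-!
# A slope of a closed chart is few given the point record

`ptf_ev`: two samples of one time whose heights over the charts `ψ` of the window `w` are near: a
polynomial `Q` which is bounded on the natural box of the charts `χ` of a closed ball has near values at
the two positions. `ptf_few`: its code is few given the record of the point `rP`.
-/

set_option autoImplicit false

namespace Pool.SL73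

open Finset Real MvPolynomial
open Pool.Agent.H49.Ent Pool.Agent.H32.Dense Pool.STK Pool.KA Pool.KSAT Pool.K2S Pool.PB Pool.S6C
open Pool.GEN hiding Det
open Pool.CHT Pool.D2R Pool.LA91 Pool.RCD Pool.NDD66
open Pool.V0F (cR)
open Pool.NDC42 (hgC pcC x0 xn xg rP LbW NdE)
open Pool.ND54 (det_rP hg_coarse cR_mono cond_A)
open Pool.BFL (Pb)

/-- **A bounded polynomial at two near positions.** -/
theorem ptf_ev (D r : ℕ) : ∃ C : ℕ, 1 ≤ C ∧ ∀ {m J : ℕ} {F : Fam m J} {c : ℕ → Fin m}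
    {a k q X : ℕ} {g gw : ℕ → ℕ} {χ ψ : ℕ → MvPolynomial (Option (Fin m)) ℝ}
    {Q : MvPolynomial (Option (Fin m)) ℝ} {M : ℝ} {ω ω' : F.Ω},
    Set.InjOn c (Set.Iio (r + 1)) → (∀ l ≤ r, g l ≤ gw l + q) →
    (∀ l ≤ r, (χ l).totalDegree ≤ D) → (∀ l ≤ r, DepC c l (χ l)) →
    (∀ l ≤ r, (ψ l).totalDegree ≤ D) → (∀ l ≤ r, DepC c l (ψ l)) →
    Q.totalDegree ≤ D → DepC c (r + 1) Q → 0 ≤ M →
    (∀ l ≤ r, ∃ κ : ℝ, ∀ b, NBx c χ g a (F.t ω) l b →
      |eval b (χ l) - eval b (ψ l) - κ| ≤ 2 ^ k / 2 ^ gw l) →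
    (∀ b, NBx c χ g a (F.t ω) (r + 1) b → |eval b Q| ≤ M) →
    (∀ l ≤ r, |F.x ω (c l) - eval (bt F ω) (χ l)| ≤ 2 ^ k / 2 ^ g l) → F.T ω = F.T ω' →
    (∀ l ≤ r, |(F.x ω' (c l) - eval (bt F ω') (ψ l)) - (F.x ω (c l) - eval (bt F ω) (ψ l))| ≤
      1 / 2 ^ (gw l + X)) →
    (r + 1) * (q + C * (k + 1)) ≤ X →
    |eval (bt F ω') Q - eval (bt F ω) Q| ≤
      2 ^ (C * (k + 1) + (r + 1) * (q + C * (k + 1))) * M / 2 ^ X := by
  obtain ⟨C₁, hC₁, hchg⟩ := hgt_chg D r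
  obtain ⟨c₀, D₁, hD₁, hlip⟩ := nbx_lipt (r + 2) (fun _ => D)
  obtain ⟨C, hC⟩ : ∃ C : ℕ, C = C₁ + c₀ + D₁ := ⟨_, rfl⟩
  refine ⟨C, by omega, ?_⟩
  intro m J F c a k q X g gw χ₀ ψ₀ Q M ω ω' hc hg hχ hχd hψ hψd hQ hQd hM hcmp hbox hpos hT hnear
    hX
  -- truncated charts
  obtain ⟨χ, hχe⟩ : ∃ χ : ℕ → MvPolynomial (Option (Fin m)) ℝ,
    χ = fun l => if l ≤ r then χ₀ l else 0 := ⟨_, rfl⟩
  obtain ⟨ψ, hψe⟩ : ∃ ψ : ℕ → MvPolynomial (Option (Fin m)) ℝ,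
    ψ = fun l => if l ≤ r then ψ₀ l else 0 := ⟨_, rfl⟩
  have hχl : ∀ l ≤ r, χ l = χ₀ l := fun l hl => by rw [hχe]; simp [hl]
  have hψl : ∀ l ≤ r, ψ l = ψ₀ l := fun l hl => by rw [hψe]; simp [hl]
  have hχD : ∀ l, (χ l).totalDegree ≤ D := fun l => by
    rw [hχe]
    by_cases h : l ≤ r
    · simp only [h, if_true]
      exact hχ l h
    · simp [h]
  have hψD : ∀ l, (ψ l).totalDegree ≤ D := fun l => by
    rw [hψe]
    by_cases h : l ≤ r
    · simp only [h, if_true]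
      exact hψ l h
    · simp [h]
  have hdp0 : ∀ l, DepC c l (0 : MvPolynomial (Option (Fin m)) ℝ) := fun l b b' _ _ => by simp
  have hχp : ∀ l, DepC c l (χ l) := fun l => by
    rw [hχe]
    by_cases h : l ≤ r
    · simp only [h, if_true]
      exact hχd l h
    · simp only [h, if_false]
      exact hdp0 l
  have hψp : ∀ l, DepC c l (ψ l) := fun l => by
    rw [hψe]
    by_cases h : l ≤ r
    · simp only [h, if_true]
      exact hψd l h
    · simp only [h, if_false]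
      exact hdp0 l
  have hnb : ∀ l ≤ r + 1, ∀ b, NBx c χ g a (F.t ω) l b → NBx c χ₀ g a (F.t ω) l b :=
    fun l hl b hb => ⟨hb.1, fun i hi => by
      have h1 := hb.2 i hi
      rwa [hχl i (by omega)] at h1⟩
  have hk1 : ∀ n : ℕ, n ≤ n * (k + 1) := fun n => Nat.le_mul_of_pos_right _ (Nat.succ_pos k)
  have hC₁C : C₁ * (k + 1) ≤ C * (k + 1) := Nat.mul_le_mul_right _ (by omega)
  obtain ⟨ρ, hρ⟩ : ∃ ρ : ℝ, ρ = 1 / 2 ^ X := ⟨_, rfl⟩
  have hρ0 : 0 < ρ := by rw [hρ]; positivity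
  have hρ1 : 2 ^ ((r + 1) * (q + C₁ * (k + 1))) * ρ ≤ 1 := by
    rw [hρ, mul_one_div, div_le_one (by positivity)]
    refine pow_le_pow_right₀ (by norm_num) (le_trans (Nat.mul_le_mul_left _ ?_) hX)
    omega
  have hbn : bt F ω none = F.t ω := rfl
  have hbn' : bt F ω' none = F.t ω := by
    show F.t ω' = F.t ω
    unfold Fam.t
    rw [hT]
  have hpath : ∀ l ≤ r, |bt F ω (some (c l)) - eval (bt F ω) (χ l)| ≤ 2 ^ k / 2 ^ g l :=
    fun l hl => by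
      rw [hχl l hl]
      exact hpos l hl
  have hnr : ∀ l ≤ r, |(bt F ω' (some (c l)) - eval (bt F ω') (ψ l)) -
      (bt F ω (some (c l)) - eval (bt F ω) (ψ l))| ≤ ρ / 2 ^ gw l := fun l hl => by
    rw [hψl l hl]
    refine (hnear l hl).trans (le_of_eq ?_)
    rw [hρ, pow_add]
    field_simp
  have hzero : |bt F ω' none - F.t ω| ≤ ρ / 2 ^ a := by
    rw [hbn', sub_self, abs_zero]
    positivity
  have k1 := hchg (c := c) (t := a) (k := k) (q := q) (gw := gw) (gt := g) (χ := χ) (ψ := ψ)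
    (t₀ := F.t ω) (ρ := ρ) (b := bt F ω) (b' := bt F ω') hc hg hχD hχp hψD hψp (fun l hl => by
      obtain ⟨κ, hκ⟩ := hcmp l hl
      refine ⟨κ, fun b₁ hb₁ => ?_⟩
      rw [hχl l hl, hψl l hl]
      exact hκ b₁ (hnb l (by omega) b₁ hb₁)) hbn hzero hpath hρ0 hρ1 hnr
  obtain ⟨ρ', hρ'⟩ : ∃ ρ' : ℝ, ρ' = 2 ^ ((r + 1) * (q + C₁ * (k + 1))) * ρ := ⟨_, rfl⟩
  have hρ'0 : 0 < ρ' := by rw [hρ']; positivity
  have hρρ : ρ ≤ ρ' := by
    rw [hρ']
    exact le_mul_of_one_le_left hρ0.le (one_le_pow₀ (by norm_num))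
  rw [← hρ'] at hρ1
  have k2 := hlip (c := c) (i := r + 1) (G := χ) (Q := Q) (g := g) (a := a) (t := F.t ω)
    (M := M) (ρ := ρ') k (by omega) hc hχD hχp hQd hQ hM hρ'0 hρ1
    (fun b₁ hb₁ => hbox b₁ (hnb (r + 1) le_rfl b₁ hb₁)) (bt F ω) (bt F ω') hbn
    (hzero.trans (div_le_div_of_nonneg_right hρρ (by positivity)))
    (fun l hl => hpath l (by omega)) (fun l hl => (k1 l (by omega)).trans
      (div_le_div_of_nonneg_right (by
        rw [hρ']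
        exact mul_le_mul_of_nonneg_right (pow_le_pow_right₀ (by norm_num)
          (Nat.mul_le_mul_right _ (by omega))) hρ0.le) (by positivity)))
  refine k2.trans ?_
  rw [hρ', hρ]
  have e1 : (2 : ℝ) ^ (C * (k + 1) + (r + 1) * (q + C * (k + 1))) * M / 2 ^ X =
      2 ^ (C * (k + 1) + (r + 1) * (q + C * (k + 1))) * (M * (1 / 2 ^ X)) := by ring
  have e2 : (2 : ℝ) ^ (c₀ + k * D₁) * M * (2 ^ ((r + 1) * (q + C₁ * (k + 1))) * (1 / 2 ^ X)) =
      2 ^ (c₀ + k * D₁) * 2 ^ ((r + 1) * (q + C₁ * (k + 1))) * (M * (1 / 2 ^ X)) := by ring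
  rw [e1, e2]
  refine mul_le_mul_of_nonneg_right ?_ (by positivity)
  rw [← pow_add]
  refine pow_le_pow_right₀ (by norm_num) (Nat.add_le_add ?_ ?_)
  · rw [hC]
    nlinarith [Nat.zero_le (C₁ * k), Nat.zero_le (c₀ * k), Nat.zero_le (D₁ * k)]
  · exact Nat.mul_le_mul_left _ (by omega)

variable {m J : ℕ}

theorem oj0 (F : Fam m J) (κ : Fin m) (g : MvPolynomial (Option (Fin m)) ℝ) (ω : F.Ω) :
    ojet F κ 0 g ω = F.x ω κ - eval (bt F ω) g := by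
  unfold ojet
  rw [Pool.OWN68.jet_zero, map_sub, eval_X]
  rfl

/-- Equal digits of a height: near heights. -/
theorem hg_near {F : Fam m J} {c : ℕ → Fin m} {w : ℝ}
    {H : LnT F → ℕ → MvPolynomial (Option (Fin m)) ℝ} {l N : ℕ} {s : ℝ} {ω ω' : F.Ω}
    (hN : (N : ℝ) ≤ s * J) (h : hgC F c w H l s ω = hgC F c w H l s ω') :
    |(F.x ω' (c l) - eval (bt F ω') (H (slam F ⌊w * J⌋₊ ω') l)) -
      (F.x ω (c l) - eval (bt F ω) (H (slam F ⌊w * J⌋₊ ω) l))| ≤ 1 / 2 ^ N := by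
  unfold hgC at h
  rw [oj0, oj0] at h
  obtain ⟨a, ha⟩ : ∃ a, a = F.x ω (c l) - eval (bt F ω) (H (slam F ⌊w * J⌋₊ ω) l) := ⟨_, rfl⟩
  obtain ⟨b, hb⟩ : ∃ b, b = F.x ω' (c l) - eval (bt F ω') (H (slam F ⌊w * J⌋₊ ω') l) := ⟨_, rfl⟩
  rw [← ha, ← hb] at h ⊢
  have hp : (0 : ℝ) < 2 ^ (s * J) := Real.rpow_pos_of_pos (by norm_num) _
  have h2 := Int.floor_le ((2 : ℝ) ^ (s * J) * a)
  have h3 := Int.lt_floor_add_one ((2 : ℝ) ^ (s * J) * a)
  have h4 := Int.floor_le ((2 : ℝ) ^ (s * J) * b)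
  have h5 := Int.lt_floor_add_one ((2 : ℝ) ^ (s * J) * b)
  rw [← h] at h4 h5
  have h6 : |(2 : ℝ) ^ (s * J) * b - 2 ^ (s * J) * a| ≤ 1 := by
    rw [abs_le]
    constructor <;> linarith
  rw [← mul_sub, abs_mul, abs_of_pos hp] at h6
  have h7 : (2 : ℝ) ^ N ≤ 2 ^ (s * J) := by
    rw [← Real.rpow_natCast]
    exact Real.rpow_le_rpow_of_exponent_le one_le_two hN
  rw [le_div_iff₀ (by positivity), mul_comm]
  exact (mul_le_mul_of_nonneg_right h7 (abs_nonneg _)).trans h6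

/-- A closed letter of a window `v ≤ x'` is a function of the closed record of `x'`. -/
theorem det_two {F : Fam m J} {A : F.Ω → Prop} {v x' : ℝ} (hv : v ≤ x') (hx' : x' ≤ 1) {V : Type}
    (G : PtT F → V) (H : LnT F → V) (h : ∀ ω, A ω → G (ptr F J ω) = H (slam F ⌊v * J⌋₊ ω)) :
    Det (Pool.Agent.H49.Ent.cond F.p A True) (cR F A x') (fun ω => G (ptr F J ω)) := by
  have h1 : Det (Pool.Agent.H49.Ent.cond F.p A True) (cR F A v) (fun ω => G (ptr F J ω)) :=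
    Pool.V0F.det_cR ⟨⟨G, fun ω _ => rfl⟩, ⟨H, fun ω hω => h ω hω⟩⟩ fun ω hω => cond_A hω
  intro ω ω' a b e
  exact h1 ω ω' a b (cR_mono hv hx' (fun ω hω => cond_A hω) ω ω' a b e)

/-- The labels `H` of the window `w ≤ x'`. -/
theorem det_lbw {F : Fam m J} {A : F.Ω → Prop} {c : ℕ → Fin m} {D : ℕ} {w x' e : ℝ} {s : ℕ → ℝ}
    {H : LnT F → ℕ → MvPolynomial (Option (Fin m)) ℝ} (hL : LbW F A c D w e s H) (hw : w ≤ x')
    (hx' : x' ≤ 1) {l : ℕ} (hl : l ≤ 3) :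
    Det (Pool.Agent.H49.Ent.cond F.p A True) (cR F A x') (fun ω => H (slam F ⌊w * J⌋₊ ω) l) ∧
      ∀ s', (H s' l).totalDegree ≤ D ∧ DepC c l (H s' l) := by
  obtain ⟨⟨V, z, z', G, h1, h2⟩, -⟩ := hL l hl
  refine ⟨?_, fun s' => ?_⟩
  · intro ω ω' a b e
    have h3 := det_two hw hx' (fun y => G (z y)) (fun s' => H s' l) (fun ω hω => by
      show G (z (ptr F J ω)) = _
      rw [h1.cls ω hω, h2]) ω ω' a b e
    have h4 : G (z (ptr F J ω)) = G (z (ptr F J ω')) := h3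
    rw [h1.cls ω (cond_A a), h1.cls ω' (cond_A b), h2, h2] at h4
    exact h4
  · rw [← h2]
    refine ⟨h1.deg _, fun b b' hn hb => h1.dep _ b b' hn fun i hi => ?_⟩
    obtain ⟨j, hj, rfl⟩ := Finset.mem_image.1 hi
    exact hb j (Finset.mem_range.1 hj)

/-- **A slope of a closed chart is few given the point record.** `G`, `Q`: charts and a polynomial which
the closed record of `x'` determines; `H` the closed labels of the window `w`. -/
theorem ptf_few (D : ℕ) : ∃ C : ℕ, 1 ≤ C ∧ ∀ {m J : ℕ} {F : Fam m J} {A : F.Ω → Prop}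
    {c : ℕ → Fin m} {w x' : ℝ} {n : ℕ → ℝ} {H : LnT F → ℕ → MvPolynomial (Option (Fin m)) ℝ}
    {a k q X K : ℕ} {g gw : ℕ → ℕ} {G : PtT F → ℕ → MvPolynomial (Option (Fin m)) ℝ}
    {Q : PtT F → MvPolynomial (Option (Fin m)) ℝ} {M sc : ℝ}, 0 < Pe F.p A →
    Set.InjOn c (Set.Iio 3) → (∀ l ≤ 2, g l ≤ gw l + q) →
    (∀ l ≤ 2, ((gw l + X : ℕ) : ℝ) ≤ n l * J) →
    (∀ l ≤ 2, Det (Pool.Agent.H49.Ent.cond F.p A True) (cR F A x')
      (fun ω => H (slam F ⌊w * J⌋₊ ω) l)) →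
    (∀ l ≤ 2, Det (Pool.Agent.H49.Ent.cond F.p A True) (cR F A x')
      (fun ω => G (ptr F J ω) l)) →
    Det (Pool.Agent.H49.Ent.cond F.p A True) (cR F A x') (fun ω => Q (ptr F J ω)) →
    (∀ ω, A ω → ∀ l ≤ 2, (G (ptr F J ω) l).totalDegree ≤ D ∧ DepC c l (G (ptr F J ω) l)) →
    (∀ ω, A ω → ∀ l ≤ 2, (H (slam F ⌊w * J⌋₊ ω) l).totalDegree ≤ D ∧
      DepC c l (H (slam F ⌊w * J⌋₊ ω) l)) →
    (∀ ω, A ω → (Q (ptr F J ω)).totalDegree ≤ D ∧ DepC c 3 (Q (ptr F J ω))) → 0 ≤ M →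
    (∀ ω, A ω → ∀ l ≤ 2, ∃ κ : ℝ, ∀ b, NBx c (G (ptr F J ω)) g a (F.t ω) l b →
      |eval b (G (ptr F J ω) l) - eval b (H (slam F ⌊w * J⌋₊ ω) l) - κ| ≤ 2 ^ k / 2 ^ gw l) →
    (∀ ω, A ω → ∀ b, NBx c (G (ptr F J ω)) g a (F.t ω) 3 b → |eval b (Q (ptr F J ω))| ≤ M) →
    (∀ ω, A ω → ∀ l ≤ 2, |F.x ω (c l) - eval (bt F ω) (G (ptr F J ω) l)| ≤ 2 ^ k / 2 ^ g l) →
    3 * (q + C * (k + 1)) ≤ X → 0 < sc →
    2 ^ (C * (k + 1) + 3 * (q + C * (k + 1))) * M / 2 ^ X ≤ K * sc →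
    CH (Pool.Agent.H49.Ent.cond F.p A True) (fun ω => ⌊eval (bt F ω) (Q (ptr F J ω)) / sc⌋)
      (rP F A c w x' n H) ≤ Real.log (2 * K + 3) := by
  obtain ⟨C, hC, hev⟩ := ptf_ev D 2
  refine ⟨C, hC, ?_⟩
  intro m J F A c w x' n H a k q X K g gw G Q M sc hA hc hg hn hdH hdG hdQ hG hH hQ hM hcmp hbox
    hpos hX hsc hK
  have hp := isLaw_cond F.isLaw hA
  have h1 := Pool.AVG5.CH_near hp
    (fun ω (_ : Fin 1) => ⌊eval (bt F ω) (Q (ptr F J ω)) / sc⌋) (rP F A c w x' n H)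
    (D := (K : ℝ) + 1) (by positivity) (fun ω ω' hω hω' h i => by
      have hAω := cond_A hω
      have hAω' := cond_A hω'
      have e1 := Prod.ext_iff.1 h
      have e2 := Prod.ext_iff.1 e1.1
      have e3 := Prod.ext_iff.1 e1.2
      have eT : F.T ω = F.T ω' := (Prod.ext_iff.1 e2.2).1
      have eG : ∀ l ≤ 2, G (ptr F J ω) l = G (ptr F J ω') l := fun l hl =>
        hdG l hl ω ω' hω hω' e2.1
      have eH : ∀ l ≤ 2, H (slam F ⌊w * J⌋₊ ω) l = H (slam F ⌊w * J⌋₊ ω') l := fun l hl =>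
        hdH l hl ω ω' hω hω' e2.1
      have eQ : Q (ptr F J ω) = Q (ptr F J ω') := hdQ ω ω' hω hω' e2.1
      have hh : ∀ l ≤ 2, hgC F c w H l (n l) ω = hgC F c w H l (n l) ω' := by
        intro l hl
        interval_cases l
        · exact congrFun e3.1 0
        · exact congrFun e3.1 1
        · exact e3.2
      have k1 := hev (F := F) (c := c) (a := a) (k := k) (q := q) (X := X) (g := g) (gw := gw)
        (χ := G (ptr F J ω)) (ψ := H (slam F ⌊w * J⌋₊ ω)) (Q := Q (ptr F J ω)) (M := M)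
        (ω := ω) (ω' := ω') hc hg (fun l hl => (hG ω hAω l hl).1) (fun l hl => (hG ω hAω l hl).2)
        (fun l hl => (hH ω hAω l hl).1) (fun l hl => (hH ω hAω l hl).2) (hQ ω hAω).1
        (hQ ω hAω).2 hM (hcmp ω hAω) (hbox ω hAω) (hpos ω hAω) eT (fun l hl => by
          have k2 := hg_near (hn l hl) (hh l hl)
          rwa [← eH l hl] at k2) hX
      have k2 := k1.trans hK
      rw [← eQ]
      have k3 : |eval (bt F ω') (Q (ptr F J ω)) / sc - eval (bt F ω) (Q (ptr F J ω)) / sc| ≤ K := by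
        rw [← sub_div, abs_div, abs_of_pos hsc, div_le_iff₀ hsc]
        exact k2
      have k4 := Int.floor_le (eval (bt F ω) (Q (ptr F J ω)) / sc)
      have k5 := Int.lt_floor_add_one (eval (bt F ω) (Q (ptr F J ω)) / sc)
      have k6 := Int.floor_le (eval (bt F ω') (Q (ptr F J ω)) / sc)
      have k7 := Int.lt_floor_add_one (eval (bt F ω') (Q (ptr F J ω)) / sc)
      rw [abs_le] at k3 ⊢
      constructor <;> linarith [k3.1, k3.2])
  have h3 : (Fintype.card (Fin 1) : ℝ) * Real.log (2 * ((K : ℝ) + 1) + 1) =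
      Real.log (2 * K + 3) := by
    rw [Fintype.card_fin, Nat.cast_one, one_mul]
    congr 1
    ring
  rw [h3] at h1
  refine le_trans (CH_mono_left hp.nonneg fun v v' _ _ h => ?_) h1
  exact congrFun (Prod.ext_iff.1 h).1 0

end Pool.SL73
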